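import Pool.Agent.Lib.H65I.Defs
import Pool.Agent.Lib.Primc.TargetA

/-! # Multisets of coloured parts and arrays of multiplicities -/

namespace Pool.Agent.Lib.H65I

open Pool.Agent.Lib.Primc

/-- the array of multiplicities -/
def mult (s : Multiset (ℕ × ℕ)) : ℕ → ℕ → ℕ := fun i c => s.count (i, c)

theorem mult_injective : Function.Injective mult := by
  intro s t h
  ext x
  exact congrFun (congrFun h x.1) x.2

theorem fst_le_size {s : Multiset (ℕ × ℕ)} {x : ℕ × ℕ} (hx : x ∈ s) : x.1 ≤ size s := by
  unfold size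
  exact Multiset.single_le_sum (fun _ _ => Nat.zero_le _) _ (Multiset.mem_map_of_mem _ hx)

theorem size_eq {n N : ℕ} {s : Multiset (ℕ × ℕ)} (hs : IsColoured n s)
    (hN : ∀ x ∈ s, x.1 ≤ N) :
    size s = ∑ i ∈ Finset.range (N + 1), ∑ c ∈ Finset.Icc 1 (2 * n - 1), i * mult s i c := by
  unfold size
  rw [Finset.sum_multiset_map_count]
  rw [← Finset.sum_product' (Finset.range (N + 1)) (Finset.Icc 1 (2 * n - 1))
    (fun i c => i * mult s i c)]
  have hsub : s.toFinset ⊆ Finset.range (N + 1) ×ˢ Finset.Icc 1 (2 * n - 1) := by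
    intro x hx
    rw [Multiset.mem_toFinset] at hx
    have h1 := hs x hx
    have h2 := hN x hx
    rw [Finset.mem_product, Finset.mem_range, Finset.mem_Icc]
    omega
  rw [← Finset.sum_subset hsub]
  · apply Finset.sum_congr rfl
    intro x _
    unfold mult
    rw [smul_eq_mul, mul_comm]
  · intro x _ hx
    rw [Multiset.mem_toFinset] at hx
    have : mult s x.1 x.2 = 0 := Multiset.count_eq_zero.mpr hx
    rw [this, mul_zero]

theorem admissible_iff (n : ℕ) (k : ℕ → ℕ) (s : Multiset (ℕ × ℕ)) :
    Admissible n k s ↔ ∀ p : ℕ → ℤ,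
      (∀ c ∈ Finset.Icc 1 (2*n-1), -1 ≤ p c ∧ Odd (p c + (c : ℤ))) →
          (∀ r ∈ Finset.Icc 1 (2*n-2), |p r - p (r+1)| = 1) →
          (∑ c ∈ Finset.Icc 1 (2*n-1),
              (if 1 ≤ p c then mult s (p c).toNat c
               else if p c = 0 then (if c = 1 then k 0 else 0) + (if c = 2*n-1 then k n else 0)
               else if Even c ∧ 2 ≤ c ∧ c ≤ 2*n-2 then k (c/2) else 0))
            ≤ ∑ t ∈ Finset.range (n+1), k t := by
  constructor
  · intro h p h1 h2
    refine h p ⟨?_, ?_⟩
    · intro c hc1 hc2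
      exact h1 c (Finset.mem_Icc.mpr ⟨hc1, hc2⟩)
    · intro r hr1 hr2
      exact h2 r (Finset.mem_Icc.mpr ⟨hr1, by omega⟩)
  · intro h p hp
    refine h p ?_ ?_
    · intro c hc
      rw [Finset.mem_Icc] at hc
      exact hp.1 c hc.1 hc.2
    · intro r hr
      rw [Finset.mem_Icc] at hr
      exact hp.2 r hr.1 (by omega)

theorem image_mult (n : ℕ) (k : ℕ → ℕ) (N : ℕ) : mult '' (admissibles n k N) = arrays n k N := by
  ext g
  constructor
  · rintro ⟨s, ⟨h1, h2, h3⟩, rfl⟩
    have hle : ∀ x ∈ s, x.1 ≤ N := fun x hx => h2 ▸ fst_le_size hx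
    refine ⟨?_, ?_, (admissible_iff n k s).mp h3⟩
    · intro i c hic
      have hmem : (i, c) ∈ s := Multiset.count_ne_zero.mp hic
      have h4 := h1 _ hmem
      have h5 := hle _ hmem
      refine ⟨h4.1, h5, h4.2.1, h4.2.2.1, ?_⟩
      rw [add_comm]
      exact h4.2.2.2
    · rw [← size_eq h1 hle, h2]
  · rintro ⟨h1, h2, h3⟩
    set s : Multiset (ℕ × ℕ) := ∑ x ∈ Finset.range (N + 1) ×ˢ Finset.Icc 1 (2 * n - 1),
      Multiset.replicate (g x.1 x.2) x with hs
    have hcount : mult s = g := by
      funext i c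
      unfold mult
      rw [hs, Multiset.count_sum']
      simp only [Multiset.count_replicate]
      by_cases hg : g i c = 0
      · rw [hg]
        apply Finset.sum_eq_zero
        intro x _
        by_cases hx : x = (i, c)
        · rw [if_pos hx, hx]
          exact hg
        · rw [if_neg hx]
      · have h4 := h1 i c hg
        rw [Finset.sum_eq_single (i, c)]
        · rw [if_pos rfl]
        · intro x _ hx
          rw [if_neg hx]
        · intro hx
          exfalso
          apply hx
          rw [Finset.mem_product, Finset.mem_range, Finset.mem_Icc]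
          exact ⟨by omega, by omega⟩
    have hmem : ∀ x ∈ s, g x.1 x.2 ≠ 0 := by
      intro x hx
      rw [← hcount]
      exact Multiset.count_ne_zero.mpr hx
    have hcol : IsColoured n s := by
      intro x hx
      have h4 := h1 x.1 x.2 (hmem x hx)
      refine ⟨h4.1, h4.2.2.1, h4.2.2.2.1, ?_⟩
      rw [add_comm]
      exact h4.2.2.2.2
    have hle : ∀ x ∈ s, x.1 ≤ N := fun x hx => (h1 x.1 x.2 (hmem x hx)).2.1
    refine ⟨s, ⟨hcol, ?_, ?_⟩, hcount⟩
    · rw [size_eq hcol hle, hcount, h2]
    · rw [admissible_iff, hcount]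
      exact h3

theorem ncard_admissibles (n : ℕ) (k : ℕ → ℕ) (N : ℕ) :
    (admissibles n k N).ncard = (arrays n k N).ncard := by
  rw [← image_mult n k N, Set.ncard_image_of_injective _ mult_injective]

/-- there are finitely many coloured partitions of `N` -/
theorem finite_admissibles (n : ℕ) (k : ℕ → ℕ) (N : ℕ) : (admissibles n k N).Finite := by
  have hcard : ∀ s ∈ admissibles n k N, Multiset.card s ≤ N := by
    intro s hs
    have h1 : Multiset.card s ≤ size s := by
      unfold size
      have : ∀ x ∈ s.map Prod.fst, 1 ≤ x := by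
        intro x hx
        obtain ⟨y, hy, rfl⟩ := Multiset.mem_map.mp hx
        exact (hs.1 y hy).1
      have h2 := Multiset.card_nsmul_le_sum (s := s.map Prod.fst) (a := 1) this
      simpa using h2
    rw [hs.2.1] at h1
    exact h1
  refine Set.Finite.subset
    (Set.finite_Iic (N • (Finset.range (N + 1) ×ˢ Finset.range (2 * n + 1) : Finset (ℕ × ℕ)).val)) ?_
  intro s hs
  rw [Set.mem_Iic, Multiset.le_iff_count]
  intro x
  by_cases hx : x ∈ s
  · have h1 := hs.1 x hx
    have h2 : x.1 ≤ N := hs.2.1 ▸ fst_le_size hx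
    have h3 : x ∈ (Finset.range (N + 1) ×ˢ Finset.range (2 * n + 1) : Finset (ℕ × ℕ)) := by
      rw [Finset.mem_product, Finset.mem_range, Finset.mem_range]
      omega
    rw [Multiset.count_nsmul, Multiset.count_eq_one_of_mem (Finset.nodup _) h3, mul_one]
    exact (Multiset.count_le_card x s).trans (hcard s hs)
  · rw [Multiset.count_eq_zero.mpr hx]
    exact Nat.zero_le _

end Pool.Agent.Lib.H65I
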