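import Mathlib

/-! # Coloured partitions of type D_(n+1)^(2): definitions for the formal power series form -/

namespace Pool.Agent.Lib.H65I

open PowerSeries

/-- A coloured partition is a finite multiset `s` of parts `(i, c)` of size `i ≥ 1` and colour
`c` in `1, ..., 2n-1`, where `i + c` is odd (odd colours carry even parts, even colours odd
parts). -/
def IsColoured (n : ℕ) (s : Multiset (ℕ × ℕ)) : Prop :=
  ∀ x ∈ s, 1 ≤ x.1 ∧ 1 ≤ x.2 ∧ x.2 ≤ 2 * n - 1 ∧ Odd (x.1 + x.2)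

/-- The sum of the sizes of the parts. -/
def size (s : Multiset (ℕ × ℕ)) : ℕ := (s.map Prod.fst).sum

/-- The extended frequency of the integer `i ≥ -1` in colour `c`: for `i ≥ 1` the number of
parts `(i, c)` in `s`; for `i = 0` it is `k 0` in colour `1` plus `k n` in colour `2n-1` (these
add if `n = 1`) and `0` in the other odd colours; for `i = -1` it is `k c'` in colour `2c'`,
`1 ≤ c' ≤ n-1`. -/
def freq (n : ℕ) (k : ℕ → ℕ) (s : Multiset (ℕ × ℕ)) (i : ℤ) (c : ℕ) : ℕ :=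
  if 1 ≤ i then s.count (i.toNat, c)
  else if i = 0 then (if c = 1 then k 0 else 0) + (if c = 2 * n - 1 then k n else 0)
  else if Even c ∧ 2 ≤ c ∧ c ≤ 2 * n - 2 then k (c / 2) else 0

/-- A path `(p 1, ..., p (2n-1))`: integers `p c ≥ -1` with `p c + c` odd, neighbours differ by
one. -/
def IsPath (n : ℕ) (p : ℕ → ℤ) : Prop :=
  (∀ c, 1 ≤ c → c ≤ 2 * n - 1 → -1 ≤ p c ∧ Odd (p c + c)) ∧
    ∀ r, 1 ≤ r → r + 1 ≤ 2 * n - 1 → |p r - p (r + 1)| = 1

/-- Admissible: every path has weight at most `k 0 + ... + k n`. -/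
def Admissible (n : ℕ) (k : ℕ → ℕ) (s : Multiset (ℕ × ℕ)) : Prop :=
  ∀ p : ℕ → ℤ, IsPath n p →
    ∑ c ∈ Finset.Icc 1 (2 * n - 1), freq n k s (p c) c ≤ ∑ t ∈ Finset.range (n + 1), k t

/-- The admissible coloured partitions of `N`. -/
def admissibles (n : ℕ) (k : ℕ → ℕ) (N : ℕ) : Set (Multiset (ℕ × ℕ)) :=
  {s | IsColoured n s ∧ size s = N ∧ Admissible n k s}

/-- The formal power series `(q^a; q^b)_∞ = ∏_{j ≥ 0} (1 - q^(a + b j))`, `a, b ≥ 1`: its
coefficient at `q^N` is the one of the product of the factors `j = 0, ..., N` (all others are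
`1` modulo `q^(N+1)`). -/
noncomputable def poch (a b : ℕ) : PowerSeries ℤ :=
  PowerSeries.mk fun N =>
    PowerSeries.coeff N (∏ j ∈ Finset.range (N + 1), (1 - (X : PowerSeries ℤ) ^ (a + b * j)))

/-- `θ(q^a; q^M) = (q^a; q^M)_∞ (q^(M-a); q^M)_∞`, `0 < a < M`. -/
noncomputable def theta (a M : ℕ) : PowerSeries ℤ := poch a M * poch (M - a) M

/-- `λ_i = k i + ... + k n`. -/
def lam (n : ℕ) (k : ℕ → ℕ) (i : ℕ) : ℕ := ∑ t ∈ Finset.Icc i n, k t

end Pool.Agent.Lib.H65I
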