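import Pool.Agent.Lib.H65I.Defs

/-! # Evaluation of integral formal power series at complex numbers of norm below one -/

namespace Pool.Agent.Lib.H65I

open PowerSeries Filter Topology

/-- `F` converges absolutely at `q` with value `v`. -/
def Ev (F : PowerSeries ℤ) (q v : ℂ) : Prop :=
  Summable (fun N : ℕ => ‖((coeff N F : ℤ) : ℂ) * q ^ N‖) ∧
    HasSum (fun N : ℕ => ((coeff N F : ℤ) : ℂ) * q ^ N) v

theorem Ev.mul {F G : PowerSeries ℤ} {q v w : ℂ} (hF : Ev F q v) (hG : Ev G q w) :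
    Ev (F * G) q (v * w) := by
  have hterm : ∀ N : ℕ, ((coeff N (F * G) : ℤ) : ℂ) * q ^ N
      = ∑ kl ∈ Finset.HasAntidiagonal.antidiagonal N,
        (((coeff kl.1 F : ℤ) : ℂ) * q ^ kl.1) * (((coeff kl.2 G : ℤ) : ℂ) * q ^ kl.2) := by
    intro N
    rw [coeff_mul, Int.cast_sum, Finset.sum_mul]
    refine Finset.sum_congr rfl ?_
    intro x hx
    have hx' := Finset.HasAntidiagonal.mem_antidiagonal.mp hx
    rw [← hx', pow_add]
    push_cast
    ring
  have h1 := summable_norm_sum_mul_antidiagonal_of_summable_norm hF.1 hG.1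
  have h2 := tsum_mul_tsum_eq_tsum_sum_antidiagonal_of_summable_norm hF.1 hG.1
  refine ⟨?_, ?_⟩
  · refine h1.congr ?_
    intro N
    rw [hterm N]
  · have h3 : Summable (fun N : ℕ => ∑ kl ∈ Finset.HasAntidiagonal.antidiagonal N,
        (((coeff kl.1 F : ℤ) : ℂ) * q ^ kl.1) * (((coeff kl.2 G : ℤ) : ℂ) * q ^ kl.2)) :=
      h1.of_norm
    have h4 := h3.hasSum
    rw [← h2, hF.2.tsum_eq, hG.2.tsum_eq] at h4
    have h5 : (fun N : ℕ => ((coeff N (F * G) : ℤ) : ℂ) * q ^ N)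
        = (fun N : ℕ => ∑ kl ∈ Finset.HasAntidiagonal.antidiagonal N,
        (((coeff kl.1 F : ℤ) : ℂ) * q ^ kl.1) * (((coeff kl.2 G : ℤ) : ℂ) * q ^ kl.2)) := funext hterm
    rw [h5]
    exact h4

theorem ev_one (q : ℂ) : Ev 1 q 1 := by
  have h : (fun N : ℕ => ((coeff N (1 : PowerSeries ℤ) : ℤ) : ℂ) * q ^ N)
      = fun N : ℕ => if N = 0 then (1 : ℂ) else 0 := by
    funext N
    rw [coeff_one]
    by_cases hN : N = 0 <;> simp [hN]
  refine ⟨?_, ?_⟩
  · rw [show (fun N : ℕ => ‖((coeff N (1 : PowerSeries ℤ) : ℤ) : ℂ) * q ^ N‖)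
      = fun N : ℕ => ‖(if N = 0 then (1 : ℂ) else 0)‖ from by
        funext N; exact congrArg norm (congrFun h N)]
    apply summable_of_ne_finset_zero (s := {0})
    intro N hN
    rw [Finset.mem_singleton] at hN
    simp [hN]
  · rw [h]
    exact hasSum_ite_eq 0 (1 : ℂ)

theorem ev_one_sub_X_pow (q : ℂ) {a : ℕ} (ha : 1 ≤ a) :
    Ev (1 - (X : PowerSeries ℤ) ^ a) q (1 - q ^ a) := by
  have h : (fun N : ℕ => ((coeff N (1 - (X : PowerSeries ℤ) ^ a) : ℤ) : ℂ) * q ^ N)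
      = fun N : ℕ => (if N = 0 then (1 : ℂ) else 0) - (if N = a then q ^ a else 0) := by
    funext N
    rw [map_sub, coeff_one, coeff_X_pow]
    by_cases hN : N = 0
    · subst hN
      have : ¬ (0 = a) := by omega
      simp [this]
    · by_cases hNa : N = a
      · subst hNa
        simp [hN]
      · simp [hN, hNa]
  refine ⟨?_, ?_⟩
  · rw [show (fun N : ℕ => ‖((coeff N (1 - (X : PowerSeries ℤ) ^ a) : ℤ) : ℂ) * q ^ N‖)
      = fun N : ℕ => ‖(if N = 0 then (1 : ℂ) else 0) - (if N = a then q ^ a else 0)‖ from by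
        funext N; exact congrArg norm (congrFun h N)]
    apply summable_of_ne_finset_zero (s := {0, a})
    intro N hN
    rw [Finset.mem_insert, Finset.mem_singleton] at hN
    push Not at hN
    simp [hN.1, hN.2]
  · rw [h]
    exact (hasSum_ite_eq 0 (1 : ℂ)).sub (hasSum_ite_eq a (q ^ a))

theorem Ev.pow {F : PowerSeries ℤ} {q v : ℂ} (hF : Ev F q v) (m : ℕ) : Ev (F ^ m) q (v ^ m) := by
  induction m with
  | zero => simpa using ev_one q
  | succ m ih => rw [pow_succ, pow_succ]; exact ih.mul hF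

theorem ev_prod {ι : Type*} (s : Finset ι) {F : ι → PowerSeries ℤ} {q : ℂ} {v : ι → ℂ}
    (h : ∀ i ∈ s, Ev (F i) q (v i)) : Ev (∏ i ∈ s, F i) q (∏ i ∈ s, v i) := by
  classical
  induction s using Finset.induction_on with
  | empty => simpa using ev_one q
  | insert i s hi ih =>
    rw [Finset.prod_insert hi, Finset.prod_insert hi]
    exact (h i (Finset.mem_insert_self i s)).mul
      (ih (fun j hj => h j (Finset.mem_insert_of_mem hj)))

/-- uniqueness of the coefficients -/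
theorem eq_of_ev {F G : PowerSeries ℤ}
    (h : ∀ q : ℂ, ‖q‖ < 1 → ∃ v, Ev F q v ∧ Ev G q v) : F = G := by
  have key : ∀ N : ℕ, coeff N (F - G) = 0 := by
    intro N
    induction N using Nat.strong_induction_on with
    | _ N ih =>
    set H := F - G with hH
    -- summability at 1/2
    have hsum : ∀ q : ℂ, ‖q‖ < 1 → Summable (fun N : ℕ => ‖((coeff N H : ℤ) : ℂ) * q ^ N‖) ∧
        HasSum (fun N : ℕ => ((coeff N H : ℤ) : ℂ) * q ^ N) 0 := by
      intro q hq
      obtain ⟨v, hF, hG⟩ := h q hq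
      have e1 : (fun N : ℕ => ((coeff N H : ℤ) : ℂ) * q ^ N)
          = fun N : ℕ => ((coeff N F : ℤ) : ℂ) * q ^ N - ((coeff N G : ℤ) : ℂ) * q ^ N := by
        funext N
        rw [hH, map_sub]
        push_cast
        ring
      refine ⟨?_, ?_⟩
      · refine Summable.of_nonneg_of_le (fun N => norm_nonneg _) ?_ (hF.1.add hG.1)
        intro N
        rw [congrFun e1 N]
        exact norm_sub_le _ _
      · rw [e1]
        simpa using hF.2.sub hG.2
    have hhalf : ‖(1 / 2 : ℂ)‖ < 1 := by norm_num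
    obtain ⟨hS, -⟩ := hsum (1 / 2) hhalf
    set S := ∑' N : ℕ, ‖((coeff N H : ℤ) : ℂ) * (1 / 2 : ℂ) ^ N‖ with hSdef
    have hS0 : 0 ≤ S := tsum_nonneg (fun N => norm_nonneg _)
    -- small eps
    obtain ⟨ε, hε0, hε1, hε2⟩ : ∃ ε : ℝ, 0 < ε ∧ ε < 1 / 2 ∧ 2 ^ (N + 1) * ε * S < 1 := by
      refine ⟨min (1 / 4) (1 / (2 ^ (N + 2) * (S + 1))), ?_, ?_, ?_⟩
      · positivity
      · refine lt_of_le_of_lt (min_le_left _ _) (by norm_num)
      · have h1 : min (1 / 4) (1 / (2 ^ (N + 2) * (S + 1))) ≤ 1 / (2 ^ (N + 2) * (S + 1)) :=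
          min_le_right _ _
        have h2 : (2 : ℝ) ^ (N + 1) * (1 / (2 ^ (N + 2) * (S + 1))) * S < 1 := by
          have : (2 : ℝ) ^ (N + 1) * (1 / (2 ^ (N + 2) * (S + 1))) * S
              = (S / (S + 1)) / 2 := by
            rw [pow_succ (2 : ℝ) (N + 1)]
            field_simp
          rw [this]
          have h3 : S / (S + 1) ≤ 1 := by
            rw [div_le_one (by linarith)]; linarith
          linarith
        calc (2 : ℝ) ^ (N + 1) * min (1 / 4) (1 / (2 ^ (N + 2) * (S + 1))) * S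
            ≤ 2 ^ (N + 1) * (1 / (2 ^ (N + 2) * (S + 1))) * S := by gcongr
          _ < 1 := h2
    have hεq : ‖(ε : ℂ)‖ < 1 := by
      rw [Complex.norm_real, Real.norm_of_nonneg hε0.le]; linarith
    obtain ⟨hS2, hs2⟩ := hsum (ε : ℂ) hεq
    -- split the sum
    have hsplit := hs2.tsum_eq
    have hs3 : Summable (fun N : ℕ => ((coeff N H : ℤ) : ℂ) * (ε : ℂ) ^ N) := hs2.summable
    rw [← hs3.sum_add_tsum_nat_add (N + 1)] at hsplit
    have hfirst : ∑ i ∈ Finset.range (N + 1), ((coeff i H : ℤ) : ℂ) * (ε : ℂ) ^ i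
        = ((coeff N H : ℤ) : ℂ) * (ε : ℂ) ^ N := by
      rw [Finset.sum_range_succ, Finset.sum_eq_zero, zero_add]
      intro i hi
      rw [ih i (Finset.mem_range.mp hi)]
      simp
    rw [hfirst] at hsplit
    have htail : ‖∑' i : ℕ, ((coeff (i + (N + 1)) H : ℤ) : ℂ) * (ε : ℂ) ^ (i + (N + 1))‖
        ≤ (2 * ε) ^ (N + 1) * S := by
      have hb : ∀ i : ℕ, ‖((coeff (i + (N + 1)) H : ℤ) : ℂ) * (ε : ℂ) ^ (i + (N + 1))‖
          ≤ (2 * ε) ^ (N + 1) *
            ‖((coeff (i + (N + 1)) H : ℤ) : ℂ) * (1 / 2 : ℂ) ^ (i + (N + 1))‖ := by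
        intro i
        rw [norm_mul, norm_mul, norm_pow, norm_pow, Complex.norm_real, Real.norm_of_nonneg hε0.le]
        have e2 : ‖(1 / 2 : ℂ)‖ = 1 / 2 := by norm_num
        rw [e2]
        have e3 : ε ^ (i + (N + 1)) = (2 * ε) ^ (i + (N + 1)) * (1 / 2) ^ (i + (N + 1)) := by
          rw [← mul_pow]; congr 1; ring
        rw [e3]
        have e4 : (2 * ε) ^ (i + (N + 1)) ≤ (2 * ε) ^ (N + 1) :=
          pow_le_pow_of_le_one (by linarith) (by linarith) (by omega)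
        calc ‖((coeff (i + (N + 1)) H : ℤ) : ℂ)‖ * ((2 * ε) ^ (i + (N + 1)) * (1 / 2) ^ (i + (N + 1)))
            ≤ ‖((coeff (i + (N + 1)) H : ℤ) : ℂ)‖ * ((2 * ε) ^ (N + 1) * (1 / 2) ^ (i + (N + 1))) := by
              gcongr
          _ = _ := by ring
      have hsh : Summable (fun i : ℕ =>
          ‖((coeff (i + (N + 1)) H : ℤ) : ℂ) * (1 / 2 : ℂ) ^ (i + (N + 1))‖) :=
        (summable_nat_add_iff (N + 1)).mpr hS
      calc ‖∑' i : ℕ, ((coeff (i + (N + 1)) H : ℤ) : ℂ) * (ε : ℂ) ^ (i + (N + 1))‖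
          ≤ ∑' i : ℕ, (2 * ε) ^ (N + 1) *
            ‖((coeff (i + (N + 1)) H : ℤ) : ℂ) * (1 / 2 : ℂ) ^ (i + (N + 1))‖ :=
            tsum_of_norm_bounded ((hsh.mul_left _).hasSum) hb
        _ = (2 * ε) ^ (N + 1) *
            ∑' i : ℕ, ‖((coeff (i + (N + 1)) H : ℤ) : ℂ) * (1 / 2 : ℂ) ^ (i + (N + 1))‖ :=
            tsum_mul_left
        _ ≤ (2 * ε) ^ (N + 1) * S := by
            gcongr
            rw [hSdef, ← hS.sum_add_tsum_nat_add (N + 1)]
            have : 0 ≤ ∑ i ∈ Finset.range (N + 1), ‖((coeff i H : ℤ) : ℂ) * (1 / 2 : ℂ) ^ i‖ :=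
              Finset.sum_nonneg (fun _ _ => norm_nonneg _)
            linarith
    have hN : ‖((coeff N H : ℤ) : ℂ) * (ε : ℂ) ^ N‖ ≤ (2 * ε) ^ (N + 1) * S := by
      have : ((coeff N H : ℤ) : ℂ) * (ε : ℂ) ^ N
          = - ∑' i : ℕ, ((coeff (i + (N + 1)) H : ℤ) : ℂ) * (ε : ℂ) ^ (i + (N + 1)) := by
        linear_combination hsplit
      rw [this, norm_neg]
      exact htail
    rw [norm_mul, norm_pow, Complex.norm_real, Real.norm_of_nonneg hε0.le] at hN
    have hεN : 0 < ε ^ N := pow_pos hε0 N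
    have hlt : ‖((coeff N H : ℤ) : ℂ)‖ < 1 := by
      have h5 : ‖((coeff N H : ℤ) : ℂ)‖ * ε ^ N ≤ (2 ^ (N + 1) * ε * S) * ε ^ N := by
        calc ‖((coeff N H : ℤ) : ℂ)‖ * ε ^ N ≤ (2 * ε) ^ (N + 1) * S := hN
          _ = (2 ^ (N + 1) * ε * S) * ε ^ N := by rw [mul_pow, pow_succ ε]; ring
      have h6 := le_of_mul_le_mul_right h5 hεN
      linarith
    rw [Complex.norm_intCast] at hlt
    have h7 : |coeff N H| < 1 := by exact_mod_cast hlt
    exact Int.abs_lt_one_iff.mp h7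
  have h0 : F - G = 0 := by
    ext N
    rw [key N]
    simp
  exact sub_eq_zero.mp h0

end Pool.Agent.Lib.H65I
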