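import Pool.Agent.Lib.H65I.Ev

/-! # The value of the formal product `poch a b` -/

namespace Pool.Agent.Lib.H65I

open PowerSeries Filter Topology

/-- partial products -/
noncomputable def PP (a b J : ℕ) : PowerSeries ℤ :=
  ∏ j ∈ Finset.range J, (1 - (X : PowerSeries ℤ) ^ (a + b * j))

/-- the same with plus signs -/
noncomputable def QQ (a b J : ℕ) : PowerSeries ℤ :=
  ∏ j ∈ Finset.range J, (1 + (X : PowerSeries ℤ) ^ (a + b * j))

theorem coeff_PP_succ (a b J N : ℕ) :
    coeff N (PP a b (J + 1)) = coeff N (PP a b J)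
      - if a + b * J ≤ N then coeff (N - (a + b * J)) (PP a b J) else 0 := by
  unfold PP
  rw [Finset.prod_range_succ, mul_sub, mul_one, map_sub, coeff_mul_X_pow']

theorem coeff_QQ_succ (a b J N : ℕ) :
    coeff N (QQ a b (J + 1)) = coeff N (QQ a b J)
      + if a + b * J ≤ N then coeff (N - (a + b * J)) (QQ a b J) else 0 := by
  unfold QQ
  rw [Finset.prod_range_succ, mul_add, mul_one, map_add, coeff_mul_X_pow']

theorem coeff_QQ_nonneg (a b J : ℕ) : ∀ N, 0 ≤ coeff N (QQ a b J) := by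
  induction J with
  | zero =>
    intro N
    unfold QQ
    rw [Finset.range_zero, Finset.prod_empty, coeff_one]
    split_ifs <;> norm_num
  | succ J ih =>
    intro N
    rw [coeff_QQ_succ]
    have h1 := ih N
    split_ifs with h
    · have := ih (N - (a + b * J)); linarith
    · linarith

theorem abs_coeff_PP_le (a b J : ℕ) : ∀ N, |coeff N (PP a b J)| ≤ coeff N (QQ a b J) := by
  induction J with
  | zero =>
    intro N
    unfold PP QQ
    rw [Finset.range_zero, Finset.prod_empty, Finset.prod_empty, coeff_one]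
    split_ifs <;> norm_num
  | succ J ih =>
    intro N
    rw [coeff_QQ_succ, coeff_PP_succ]
    have h1 := ih N
    split_ifs with h
    · have h2 := ih (N - (a + b * J))
      calc |coeff N (PP a b J) - coeff (N - (a + b * J)) (PP a b J)|
          ≤ |coeff N (PP a b J)| + |coeff (N - (a + b * J)) (PP a b J)| := abs_sub _ _
        _ ≤ _ := add_le_add h1 h2
    · simpa using h1

theorem coeff_PP_stab {a b : ℕ} (ha : 1 ≤ a) (hb : 1 ≤ b) (N : ℕ) :
    ∀ J, N ≤ J → coeff N (PP a b J) = coeff N (PP a b N) := by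
  intro J hJ
  induction J, hJ using Nat.le_induction with
  | base => rfl
  | succ J hJ ih =>
    rw [coeff_PP_succ, ih, if_neg, sub_zero]
    have : 1 * J ≤ b * J := Nat.mul_le_mul_right J hb
    omega

theorem coeff_QQ_mono (a b N : ℕ) : Monotone (fun J => coeff N (QQ a b J)) := by
  apply monotone_nat_of_le_succ
  intro J
  rw [coeff_QQ_succ]
  split_ifs with h
  · have := coeff_QQ_nonneg a b J (N - (a + b * J)); linarith
  · linarith

theorem coeff_QQ_stab {a b : ℕ} (ha : 1 ≤ a) (hb : 1 ≤ b) (N : ℕ) :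
    ∀ J, N ≤ J → coeff N (QQ a b J) = coeff N (QQ a b N) := by
  intro J hJ
  induction J, hJ using Nat.le_induction with
  | base => rfl
  | succ J hJ ih =>
    rw [coeff_QQ_succ, ih, if_neg, add_zero]
    have : 1 * J ≤ b * J := Nat.mul_le_mul_right J hb
    omega

theorem coeff_QQ_le {a b : ℕ} (ha : 1 ≤ a) (hb : 1 ≤ b) (N J : ℕ) :
    coeff N (QQ a b J) ≤ coeff N (QQ a b N) := by
  rcases le_total N J with h | h
  · exact (coeff_QQ_stab ha hb N J h).le
  · exact coeff_QQ_mono a b N h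

theorem coeff_poch {a b : ℕ} (ha : 1 ≤ a) (hb : 1 ≤ b) (N J : ℕ) (h : N ≤ J) :
    coeff N (poch a b) = coeff N (PP a b J) := by
  unfold poch
  rw [coeff_mk]
  have h1 := coeff_PP_stab ha hb N (N + 1) (by omega)
  have h2 := coeff_PP_stab ha hb N J h
  rw [h2, ← h1]
  rfl

theorem ev_one_add_X_pow (q : ℂ) {a : ℕ} (ha : 1 ≤ a) :
    Ev (1 + (X : PowerSeries ℤ) ^ a) q (1 + q ^ a) := by
  have h : (fun N : ℕ => ((coeff N (1 + (X : PowerSeries ℤ) ^ a) : ℤ) : ℂ) * q ^ N)
      = fun N : ℕ => (if N = 0 then (1 : ℂ) else 0) + (if N = a then q ^ a else 0) := by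
    funext N
    rw [map_add, coeff_one, coeff_X_pow]
    by_cases hN : N = 0
    · subst hN
      have : ¬ (0 = a) := by omega
      simp [this]
    · by_cases hNa : N = a
      · subst hNa
        simp [hN]
      · simp [hN, hNa]
  refine ⟨?_, ?_⟩
  · rw [show (fun N : ℕ => ‖((coeff N (1 + (X : PowerSeries ℤ) ^ a) : ℤ) : ℂ) * q ^ N‖)
      = fun N : ℕ => ‖(if N = 0 then (1 : ℂ) else 0) + (if N = a then q ^ a else 0)‖ from by
        funext N; exact congrArg norm (congrFun h N)]
    apply summable_of_ne_finset_zero (s := {0, a})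
    intro N hN
    rw [Finset.mem_insert, Finset.mem_singleton] at hN
    push Not at hN
    simp [hN.1, hN.2]
  · rw [h]
    exact (hasSum_ite_eq 0 (1 : ℂ)).add (hasSum_ite_eq a (q ^ a))

theorem ev_PP (q : ℂ) {a b : ℕ} (ha : 1 ≤ a) (J : ℕ) :
    Ev (PP a b J) q (∏ j ∈ Finset.range J, (1 - q ^ (a + b * j))) :=
  ev_prod _ (fun _ _ => ev_one_sub_X_pow q (by omega))

theorem ev_QQ (q : ℂ) {a b : ℕ} (ha : 1 ≤ a) (J : ℕ) :
    Ev (QQ a b J) q (∏ j ∈ Finset.range J, (1 + q ^ (a + b * j))) :=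
  ev_prod _ (fun _ _ => ev_one_add_X_pow q (by omega))

theorem summable_geo {x : ℝ} (hx0 : 0 ≤ x) (hx1 : x < 1) {a b : ℕ} (hb : 1 ≤ b) :
    Summable (fun j : ℕ => x ^ (a + b * j)) := by
  have h := summable_geometric_of_lt_one hx0 hx1
  refine Summable.of_nonneg_of_le (fun j => pow_nonneg hx0 _) ?_ h
  intro j
  apply pow_le_pow_of_le_one hx0 hx1.le
  have : 1 * j ≤ b * j := Nat.mul_le_mul_right j hb
  omega

theorem summable_QQ {x : ℝ} (hx0 : 0 ≤ x) (hx1 : x < 1) {a b : ℕ} (ha : 1 ≤ a) (hb : 1 ≤ b) :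
    Summable (fun N : ℕ => ((coeff N (QQ a b N) : ℤ) : ℝ) * x ^ N) := by
  have hg := summable_geo (a := a) hx0 hx1 hb
  apply summable_of_sum_range_le (c := Real.exp (∑' j : ℕ, x ^ (a + b * j)))
  · intro N
    have := coeff_QQ_nonneg a b N N
    have h2 : (0 : ℝ) ≤ ((coeff N (QQ a b N) : ℤ) : ℝ) := by exact_mod_cast this
    positivity
  · intro T
    have hq := ev_QQ (x : ℂ) (b := b) ha T
    have hreal : HasSum (fun N : ℕ => ((coeff N (QQ a b T) : ℤ) : ℝ) * x ^ N)
        (∏ j ∈ Finset.range T, (1 + x ^ (a + b * j))) := by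
      have h3 := hq.2
      rw [← Complex.hasSum_ofReal]
      push_cast
      exact h3
    calc ∑ N ∈ Finset.range T, ((coeff N (QQ a b N) : ℤ) : ℝ) * x ^ N
        = ∑ N ∈ Finset.range T, ((coeff N (QQ a b T) : ℤ) : ℝ) * x ^ N := by
          refine Finset.sum_congr rfl ?_
          intro N hN
          rw [coeff_QQ_stab ha hb N T (Finset.mem_range.mp hN).le]
      _ ≤ ∏ j ∈ Finset.range T, (1 + x ^ (a + b * j)) := by
          rw [← hreal.tsum_eq]
          apply hreal.summable.sum_le_tsum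
          intro N _
          have := coeff_QQ_nonneg a b T N
          have h2 : (0 : ℝ) ≤ ((coeff N (QQ a b T) : ℤ) : ℝ) := by exact_mod_cast this
          positivity
      _ ≤ ∏ j ∈ Finset.range T, Real.exp (x ^ (a + b * j)) := by
          apply Finset.prod_le_prod
          · intro j _; positivity
          · intro j _
            rw [add_comm]
            exact Real.add_one_le_exp _
      _ = Real.exp (∑ j ∈ Finset.range T, x ^ (a + b * j)) := (Real.exp_sum _ _).symm
      _ ≤ Real.exp (∑' j : ℕ, x ^ (a + b * j)) := by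
          apply Real.exp_le_exp.mpr
          exact hg.sum_le_tsum _ (fun j _ => pow_nonneg hx0 _)

theorem ev_poch {q : ℂ} (hq : ‖q‖ < 1) {a b : ℕ} (ha : 1 ≤ a) (hb : 1 ≤ b) :
    Ev (poch a b) q (∏' j : ℕ, (1 - q ^ (a + b * j))) := by
  have hG := summable_QQ (norm_nonneg q) hq ha hb
  have hbound : ∀ J N : ℕ, ‖((coeff N (PP a b J) : ℤ) : ℂ) * q ^ N‖
      ≤ ((coeff N (QQ a b N) : ℤ) : ℝ) * ‖q‖ ^ N := by
    intro J N
    rw [norm_mul, norm_pow, Complex.norm_intCast]
    have h1 := abs_coeff_PP_le a b J N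
    have h2 := coeff_QQ_le ha hb N J
    have h3 : |((coeff N (PP a b J) : ℤ) : ℝ)| ≤ ((coeff N (QQ a b N) : ℤ) : ℝ) := by
      exact_mod_cast h1.trans h2
    gcongr
  have hbound2 : ∀ N : ℕ, ‖((coeff N (poch a b) : ℤ) : ℂ) * q ^ N‖
      ≤ ((coeff N (QQ a b N) : ℤ) : ℝ) * ‖q‖ ^ N := by
    intro N
    rw [coeff_poch ha hb N N le_rfl]
    exact hbound N N
  have hsum : Summable (fun N : ℕ => ‖((coeff N (poch a b) : ℤ) : ℂ) * q ^ N‖) :=
    Summable.of_nonneg_of_le (fun _ => norm_nonneg _) hbound2 hG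
  refine ⟨hsum, ?_⟩
  have hlim : Tendsto (fun J : ℕ => ∑' N : ℕ, ((coeff N (PP a b J) : ℤ) : ℂ) * q ^ N) atTop
      (𝓝 (∑' N : ℕ, ((coeff N (poch a b) : ℤ) : ℂ) * q ^ N)) := by
    apply tendsto_tsum_of_dominated_convergence hG
    · intro N
      apply tendsto_const_nhds.congr'
      filter_upwards [Filter.eventually_ge_atTop N] with J hJ
      rw [coeff_poch ha hb N J hJ]
    · filter_upwards with J N
      exact hbound J N
  have hprod : Tendsto (fun J : ℕ => ∏ j ∈ Finset.range J, (1 - q ^ (a + b * j))) atTop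
      (𝓝 (∏' j : ℕ, (1 - q ^ (a + b * j)))) := by
    apply Multipliable.tendsto_prod_tprod_nat
    have h := multipliable_one_add_of_summable (f := fun s : ℕ => -(q ^ (a + b * s)))
      (by simpa using summable_geo (a := a) (norm_nonneg q) hq hb)
    refine h.congr ?_
    intro j
    ring
  have heq : ∀ J : ℕ, ∑' N : ℕ, ((coeff N (PP a b J) : ℤ) : ℂ) * q ^ N
      = ∏ j ∈ Finset.range J, (1 - q ^ (a + b * j)) := fun J => (ev_PP q ha J).2.tsum_eq
  rw [show (fun J : ℕ => ∑' N : ℕ, ((coeff N (PP a b J) : ℤ) : ℂ) * q ^ N)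
    = fun J : ℕ => ∏ j ∈ Finset.range J, (1 - q ^ (a + b * j)) from funext heq] at hlim
  rw [tendsto_nhds_unique hprod hlim]
  exact hsum.of_norm.hasSum

end Pool.Agent.Lib.H65I
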