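import Pool.Agent.Lib.H65I.Count
import Pool.Agent.Lib.H65I.Poch
import Pool.Agent.Lib.Primc.Zero

/-! # The product formula as an identity of formal power series -/

namespace Pool.Agent.Lib.H65I

open PowerSeries Pool.Agent.Lib.Primc

theorem ev_poch_ph {q : ℂ} (hq : ‖q‖ < 1) {a b : ℕ} (ha : 1 ≤ a) (hb : 1 ≤ b) :
    Ev (poch a b) q (ph b q a) := ev_poch hq ha hb

theorem ev_poch_self {q : ℂ} (hq : ‖q‖ < 1) {M : ℕ} (hM : 1 ≤ M) :
    Ev (poch M M) q (qinf (q ^ M)) := by
  have h := ev_poch hq hM hM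
  have e : (∏' j : ℕ, (1 - q ^ (M + M * j))) = qinf (q ^ M) := by
    unfold qinf
    apply tprod_congr
    intro j
    rw [← pow_mul]
    congr 2
    ring
  rw [e] at h
  exact h

theorem ev_theta {q : ℂ} (hq : ‖q‖ < 1) {a M : ℕ} (ha : 1 ≤ a) (haM : a < M) :
    Ev (theta a M) q (thh M q a) := by
  rw [thh_eq hq ha haM]
  exact (ev_poch_ph hq ha (by omega)).mul (ev_poch_ph hq (by omega) (by omega))

theorem lam_le {n : ℕ} (k : ℕ → ℕ) (i : ℕ) : lam n k i ≤ ∑ t ∈ Finset.range (n + 1), k t := by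
  unfold lam
  apply Finset.sum_le_sum_of_subset
  intro t ht
  rw [Finset.mem_Icc] at ht
  rw [Finset.mem_range]
  omega

theorem lam_anti {n : ℕ} (k : ℕ → ℕ) {i j : ℕ} (h : i ≤ j) : lam n k j ≤ lam n k i := by
  unfold lam
  apply Finset.sum_le_sum_of_subset
  intro t ht
  rw [Finset.mem_Icc] at ht ⊢
  omega

theorem constantCoeff_poch {a b : ℕ} (ha : 1 ≤ a) (hb : 1 ≤ b) :
    constantCoeff (poch a b) = 1 := by
  rw [← coeff_zero_eq_constantCoeff_apply, coeff_poch ha hb 0 0 le_rfl]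
  unfold PP
  rw [Finset.range_zero, Finset.prod_empty]
  simp

theorem isUnit_den (n : ℕ) : IsUnit (poch 1 1 ^ (n - 1) * poch 2 2) := by
  rw [PowerSeries.isUnit_iff_constantCoeff, map_mul, map_pow,
    constantCoeff_poch le_rfl le_rfl, constantCoeff_poch (by norm_num) (by norm_num)]
  simp

/-- the generating function of the admissible coloured partitions -/
noncomputable def gf (n : ℕ) (k : ℕ → ℕ) : PowerSeries ℤ :=
  PowerSeries.mk fun N => ((admissibles n k N).ncard : ℤ)

theorem product_formula (n : ℕ) (hn : 1 ≤ n) (k : ℕ → ℕ) (M : ℕ)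
    (hM : M = 2 * (∑ t ∈ Finset.range (n + 1), k t) + 2 * n) :
    gf n k * (poch 1 1 ^ (n - 1) * poch 2 2)
      = poch M M ^ n * ∏ i ∈ Finset.Icc 1 n, ∏ j ∈ Finset.Ioc i n,
        (theta (lam n k i - lam n k j + (j - i)) M *
          theta (lam n k i + lam n k j + (2 * n + 1 - (i + j))) M) := by
  apply eq_of_ev
  intro q hq
  have hS : (2 * (n + Sk k (n + 1))) = M := by
    rw [hM]; unfold Sk; ring
  have h0 := final n hn k q hq
  rw [← rhs_eq n k q, ← hM] at h0
  set V : ℂ := ((∏' j : ℕ, (1 - q^(M*(j+1))))^n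
        / ((∏' j : ℕ, (1 - q^(2*(j+1)))) * (∏' j : ℕ, (1 - q^(j+1)))^(n-1))
        * ∏ i ∈ Finset.Icc 1 n, ∏ j ∈ Finset.Ioc i n,
          ((∏' r : ℕ, ((1 - q^(((∑ t ∈ Finset.Icc i n, k t) - (∑ t ∈ Finset.Icc j n, k t) + (j - i))
                  + M*r))
              * (1 - q^(M
                  - ((∑ t ∈ Finset.Icc i n, k t) - (∑ t ∈ Finset.Icc j n, k t) + (j - i))
                  + M*r))))
          * (∏' r : ℕ, ((1 - q^(((∑ t ∈ Finset.Icc i n, k t) + (∑ t ∈ Finset.Icc j n, k t) + (2*n+1 - (i+j)))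
                  + M*r))
              * (1 - q^(M
                  - ((∑ t ∈ Finset.Icc i n, k t) + (∑ t ∈ Finset.Icc j n, k t) + (2*n+1 - (i+j)))
                  + M*r)))))) with hV
  have hgf : Ev (gf n k) q V := by
    have e : (fun N : ℕ => (((coeff N (gf n k) : ℤ) : ℂ)) * q ^ N)
        = fun N : ℕ => (((arrays n k N).ncard : ℕ) : ℂ) * q ^ N := by
      funext N
      unfold gf
      rw [coeff_mk, ncard_admissibles]
      push_cast
      rfl
    refine ⟨?_, ?_⟩
    · have h1 := h0.summable.norm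
      refine h1.congr ?_
      intro N
      exact congrArg norm (congrFun e N).symm
    · rw [e]
      exact h0
  have hden : Ev (poch 1 1 ^ (n - 1) * poch 2 2) q
      ((∏' j : ℕ, (1 - q^(j+1)))^(n-1) * (∏' j : ℕ, (1 - q^(2*(j+1))))) := by
    have h1 := ev_poch_self hq (M := 1) le_rfl
    have h2 := ev_poch_self hq (M := 2) (by norm_num)
    have e1 : qinf (q ^ 1) = ∏' j : ℕ, (1 - q^(j+1)) := by rw [pow_one]; rfl
    have e2 : qinf (q ^ 2) = ∏' j : ℕ, (1 - q^(2*(j+1))) := by
      unfold qinf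
      apply tprod_congr
      intro j
      rw [← pow_mul]
    rw [e1] at h1
    rw [e2] at h2
    exact (h1.pow _).mul h2
  have hnum : Ev (poch M M ^ n * ∏ i ∈ Finset.Icc 1 n, ∏ j ∈ Finset.Ioc i n,
        (theta (lam n k i - lam n k j + (j - i)) M *
          theta (lam n k i + lam n k j + (2 * n + 1 - (i + j))) M)) q
      ((∏' j : ℕ, (1 - q^(M*(j+1))))^n * ∏ i ∈ Finset.Icc 1 n, ∏ j ∈ Finset.Ioc i n,
        (thh M q (lam n k i - lam n k j + (j - i)) *
          thh M q (lam n k i + lam n k j + (2 * n + 1 - (i + j))))) := by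
    have h1 := ev_poch_self hq (M := M) (by omega)
    have e1 : qinf (q ^ M) = ∏' j : ℕ, (1 - q^(M*(j+1))) := by
      unfold qinf
      apply tprod_congr
      intro j
      rw [← pow_mul]
    rw [e1] at h1
    refine (h1.pow _).mul (ev_prod _ ?_)
    intro i hi
    refine ev_prod _ ?_
    intro j hj
    rw [Finset.mem_Icc] at hi
    rw [Finset.mem_Ioc] at hj
    have hl1 := lam_le (n := n) k i
    have hl2 := lam_le (n := n) k j
    have hl3 := lam_anti (n := n) k hj.1.le
    exact (ev_theta hq (by omega) (by omega)).mul (ev_theta hq (by omega) (by omega))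
  refine ⟨_, hgf.mul hden, ?_⟩
  have hne1 : (∏' j : ℕ, (1 - q^(j+1))) ≠ 0 := by
    have := ph_ne_zero hq (M := 1) le_rfl (r := 1) le_rfl
    unfold ph at this
    intro hz
    apply this
    rw [← hz]
    apply tprod_congr
    intro j
    congr 2
    ring
  have hne2 : (∏' j : ℕ, (1 - q^(2*(j+1)))) ≠ 0 := by
    have := ph_ne_zero hq (M := 2) (by norm_num) (r := 2) (by norm_num)
    unfold ph at this
    intro hz
    apply this
    rw [← hz]
    apply tprod_congr
    intro j
    congr 2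
    ring
  have hval : V * ((∏' j : ℕ, (1 - q^(j+1)))^(n-1) * (∏' j : ℕ, (1 - q^(2*(j+1)))))
      = ((∏' j : ℕ, (1 - q^(M*(j+1))))^n * ∏ i ∈ Finset.Icc 1 n, ∏ j ∈ Finset.Ioc i n,
        (thh M q (lam n k i - lam n k j + (j - i)) *
          thh M q (lam n k i + lam n k j + (2 * n + 1 - (i + j))))) := by
    rw [hV]
    unfold thh lam
    have hne1' : (∏' j : ℕ, (1 - q^(j+1))) ^ (n - 1) ≠ 0 := pow_ne_zero _ hne1
    field_simp
  rw [hval]
  exact hnum

end Pool.Agent.Lib.H65I
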